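import Pool.Agent.Helper20.IIC.Stmts

set_option autoImplicit false

/-! The comparison inequality for a far source. -/

namespace IIC

open Filter Topology Set
open scoped BigOperators

lemma cmpx_cyl {d : ℕ} (F : Finset (Ed d)) : IsCyl (EF F) := by
  refine ⟨F, fun ω ω' h => ?_⟩
  constructor
  · intro h1 e he
    rw [← h e he]; exact h1 e he
  · intro h1 e he
    rw [h e he]; exact h1 e he

theorem st_CMPX (hFINL : ST_FINL) (hLIM : ST_LIM) (hTWB : ST_TWB) (hUPS : ST_UPS) : ST_CMPX := by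
  intro d hd β hβ F x W w D hw hw1 hD
  obtain ⟨⟨h0, hnn, -, hneg, -, -, -⟩, hCN, -, hpos, -⟩ := hTWB d hd β hβ.le
  have hpos := hpos hβ
  -- limits
  have hc : ∀ y z : Fin d → ℤ, Tendsto (fun Λ : Finset (Ed d) => PW β Λ (CN y z)) atTop
      (𝓝 (S2 β (z - y))) := by
    intro y z
    have h := ((hLIM d β hβ.le).1 (CN y z) (hUPS d y z ∅).1).1
    rw [hCN] at h
    exact h
  have ha : ∀ y z : Fin d → ℤ, Tendsto (fun Λ : Finset (Ed d) => PW β Λ (EF F ∩ CN y z)) atTop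
      (𝓝 (lW β (EF F ∩ CN y z))) := fun y z =>
    ((hLIM d β hβ.le).2 (EF F) (CN y z) (cmpx_cyl F) (hUPS d y z ∅).1).1
  have hcp : ∀ (Λ : Finset (Ed d)) (y z : Fin d → ℤ), 0 < PW β Λ (CN y z) := by
    intro Λ y z
    have h := ((hLIM d β hβ.le).1 (CN y z) (hUPS d y z ∅).1).2.2.2 Λ
    rw [hCN] at h
    exact (hpos _).trans_le h
  have hsym : ∀ y z : Fin d → ℤ, S2 β (z - y) = S2 β (y - z) := by
    intro y z
    rw [← hneg (z - y), neg_sub]
  -- the inequality with `D + δ`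
  have key : ∀ δ : ℝ, 0 < δ →
      |lW β (EF F ∩ CN 0 x) / S2 β x - ∑ u ∈ W, w u * (lW β (EF F ∩ CN 0 u) / S2 β u)| ≤
      Real.sqrt (∑ u ∈ W, ∑ v ∈ W, w u * w v * (S2 β x * S2 β (u - v) *
        (1 / (S2 β u * S2 β (x - v)) + 1 / (S2 β v * S2 β (x - u)))) - 1) + (D + δ) := by
    intro δ hδ
    have hc0 : ∀ z : Fin d → ℤ, Tendsto (fun Λ : Finset (Ed d) => PW β Λ (CN 0 z)) atTop
        (𝓝 (S2 β z)) := by
      intro z
      have h := hc 0 z
      rw [sub_zero] at h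
      exact h
    have hcs : ∀ y z : Fin d → ℤ, Tendsto (fun Λ : Finset (Ed d) => PW β Λ (CN y z)) atTop
        (𝓝 (S2 β (y - z))) := by
      intro y z
      have h := hc y z
      rw [hsym] at h
      exact h
    have hL : Tendsto (fun Λ : Finset (Ed d) => |PW β Λ (EF F ∩ CN 0 x) / PW β Λ (CN 0 x) -
        ∑ u ∈ W, w u * (PW β Λ (EF F ∩ CN 0 u) / PW β Λ (CN 0 u))|) atTop
        (𝓝 |lW β (EF F ∩ CN 0 x) / S2 β x - ∑ u ∈ W, w u * (lW β (EF F ∩ CN 0 u) / S2 β u)|) := by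
      refine Tendsto.abs (Tendsto.sub ?_ (tendsto_finsetSum _ fun u _ => ?_))
      · exact (ha 0 x).div (hc0 x) (hpos x).ne'
      · exact ((ha 0 u).div (hc0 u) (hpos u).ne').const_mul _
    have hR : Tendsto (fun Λ : Finset (Ed d) => Real.sqrt (∑ u ∈ W, ∑ v ∈ W, w u * w v *
        (PW β Λ (CN 0 x) * PW β Λ (CN u v) * (1 / (PW β Λ (CN 0 u) * PW β Λ (CN v x)) +
          1 / (PW β Λ (CN 0 v) * PW β Λ (CN u x)))) - 1) + (D + δ)) atTop
        (𝓝 (Real.sqrt (∑ u ∈ W, ∑ v ∈ W, w u * w v * (S2 β x * S2 β (u - v) *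
        (1 / (S2 β u * S2 β (x - v)) + 1 / (S2 β v * S2 β (x - u)))) - 1) + (D + δ))) := by
      refine Tendsto.add_const _ (Tendsto.sqrt (Tendsto.sub_const ?_ _))
      refine tendsto_finsetSum _ fun u _ => tendsto_finsetSum _ fun v _ => ?_
      refine Tendsto.const_mul _ (((hc0 x).mul (hcs u v)).mul ?_)
      refine Tendsto.add ?_ ?_
      · exact Tendsto.div tendsto_const_nhds ((hc0 u).mul (hc v x)) (mul_pos (hpos _) (hpos _)).ne'
      · exact Tendsto.div tendsto_const_nhds ((hc0 v).mul (hc u x)) (mul_pos (hpos _) (hpos _)).ne'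
    refine le_of_tendsto_of_tendsto hL hR ?_
    -- eventually the hypotheses of `FINL` hold
    have h1 : ∀ᶠ Λ : Finset (Ed d) in atTop, F ⊆ Λ := eventually_ge_atTop F
    have h2 : ∀ᶠ Λ : Finset (Ed d) in atTop, ∀ u ∈ W,
        ∑ z ∈ vts F, PW β Λ (CN u z) * PW β Λ (CN z x) ≤ (D + δ) * PW β Λ (CN u x) := by
      rw [Filter.eventually_all_finset]
      intro u hu
      have h3 : Tendsto (fun Λ : Finset (Ed d) => ∑ z ∈ vts F, PW β Λ (CN u z) * PW β Λ (CN z x))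
          atTop (𝓝 (∑ z ∈ vts F, S2 β (u - z) * S2 β (x - z))) :=
        tendsto_finsetSum _ fun z _ => (hcs u z).mul (hc z x)
      have h4 : Tendsto (fun Λ : Finset (Ed d) => (D + δ) * PW β Λ (CN u x)) atTop
          (𝓝 ((D + δ) * S2 β (x - u))) := (hc u x).const_mul _
      have h5 : ∑ z ∈ vts F, S2 β (u - z) * S2 β (x - z) < (D + δ) * S2 β (x - u) := by
        have := hD u hu
        have := mul_pos hδ (hpos (x - u))
        rw [add_mul]
        linarith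
      exact (h3.eventually_lt h4 h5).mono fun Λ h => h.le
    filter_upwards [h1, h2] with Λ h1 h2
    exact hFINL d hd β hβ.le Λ F h1 0 x W w (D + δ) (fun x z => PW β Λ (CN x z))
      (fun x z => PW β Λ (EF F ∩ CN x z)) (fun _ _ => rfl) (fun _ _ => rfl) hw hw1 (hcp Λ _ _)
      (fun u _ => ⟨hcp Λ _ _, hcp Λ _ _⟩) h2
  refine le_of_forall_pos_le_add fun δ hδ => ?_
  have := key δ hδ
  linarith

end IIC
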